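import Pool.Agent.helper28.EG.Spec

/-!
# EG.PQE: the polynomial `f^q - id`.
-/

set_option autoImplicit false

open Complex Metric Set Filter Topology MeasureTheory
open WP (it)

noncomputable section

namespace EG

theorem PQE : PQE_stmt := by
  intro f q hf hq
  have h1 : (f.comp^[q] Polynomial.X).natDegree = f.natDegree ^ q := by
    rw [Polynomial.natDegree_iterate_comp, Polynomial.natDegree_X, mul_one]
  have h2 : 2 ≤ f.natDegree ^ q :=
    le_trans hf (Nat.le_self_pow (by omega) _)
  have h3 : (Pq f q).natDegree = f.natDegree ^ q := by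
    unfold Pq
    rw [Polynomial.natDegree_sub_eq_left_of_natDegree_lt, h1]
    rw [h1, Polynomial.natDegree_X]; omega
  have h4 : ∀ z, (f.comp^[q] Polynomial.X).eval z = it f q z := by
    intro z
    rw [Polynomial.iterate_comp_eval, Polynomial.eval_X]
    rfl
  have h5 : ∀ z, (Pq f q).eval z = it f q z - z := by
    intro z
    unfold Pq
    rw [Polynomial.eval_sub, Polynomial.eval_X, h4]
  have h6 : it f q = fun z => (f.comp^[q] Polynomial.X).eval z := funext fun z => (h4 z).symm
  have h0 : Pq f q ≠ 0 := by
    intro h
    rw [h, Polynomial.natDegree_zero] at h3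
    omega
  refine ⟨by omega, h5, ?_, ?_⟩
  · intro z
    rw [h6, Polynomial.deriv]
    unfold Pq
    rw [Polynomial.derivative_sub, Polynomial.derivative_X, Polynomial.eval_sub, Polynomial.eval_one]
  · intro p
    rw [Multiset.mem_toFinset, Polynomial.mem_roots h0, Polynomial.IsRoot.def, h5, sub_eq_zero]

end EG
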